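import Pool.Agent.GenTuple.Ultra

/-!
# A linear form that kills a subspace kills the classes of its sequences
-/

set_option autoImplicit false

namespace Pool.Agent.QGE

open Pool.Agent.GenTuple

/-- If the form with the coefficients `w j` of the ultrapower `G` of `F` kills the subspace `R` of
`K ^ q`, then it kills the class of every family of elements of `R`. -/
theorem ann {K F : Type} [Field K] [Field F] [Algebra K F] {B : Type} (U : Ultrafilter B)
    {q : Type} [Fintype q] (R : Submodule K (q → K)) (w : q → UP U F)
    (hw : ∀ a ∈ R, ∑ j, algebraMap K (UP U F) (a j) * w j = 0) (a : B → q → K)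
    (ha : ∀ b, a b ∈ R) : ∑ j, UP.mapHom U K F (cl U K fun b => a b j) * w j = 0 := by
  classical
  let v := Module.finBasis K R
  let c : Fin (Module.finrank K R) → B → K := fun i b => v.repr ⟨a b, ha b⟩ i
  have h1 : ∀ b j, a b j = ∑ i, c i b * (v i : q → K) j := by
    intro b j
    have h2 := congrArg (fun x : R => (x : q → K) j) (v.sum_repr ⟨a b, ha b⟩)
    simp only [Submodule.coe_sum, Submodule.coe_smul, Finset.sum_apply, Pi.smul_apply,
      smul_eq_mul] at h2
    exact h2.symm
  have h2 : ∀ j, UP.mapHom U K F (cl U K fun b => a b j) =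
      ∑ i, UP.mapHom U K F (cl U K (c i)) * algebraMap K (UP U F) ((v i : q → K) j) := by
    intro j
    have h3 : (fun b => a b j) = ∑ i, c i * fun _ => (v i : q → K) j := by
      funext b
      rw [h1 b j, Finset.sum_apply]
      rfl
    rw [h3, map_sum, map_sum]
    refine Finset.sum_congr rfl fun i _ => ?_
    rw [map_mul, map_mul]
    rfl
  calc ∑ j, UP.mapHom U K F (cl U K fun b => a b j) * w j
      = ∑ i, UP.mapHom U K F (cl U K (c i)) *
          ∑ j, algebraMap K (UP U F) ((v i : q → K) j) * w j := by
        rw [Finset.sum_congr rfl fun j _ => by rw [h2 j, Finset.sum_mul]]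
        rw [Finset.sum_comm]
        refine Finset.sum_congr rfl fun i _ => ?_
        rw [Finset.mul_sum]
        exact Finset.sum_congr rfl fun j _ => by ring
    _ = 0 := Finset.sum_eq_zero fun i _ => by rw [hw _ (v i).2, mul_zero]

end Pool.Agent.QGE
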