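import Pool.Agent.QT.UltraK
import Pool.Agent.QT.Pts
import Pool.Agent.QGE.AnnE

/-! # Theorem G-infinity, step (A): dependent pairs have a relation of bounded degree -/

set_option autoImplicit false

namespace Pool.Agent.QGE

open MvPolynomial Pool.Agent.GenTuple Pool.Agent.QT

/-- a relation one of whose partial derivatives does not vanish -/
theorem exists_pd {K F : Type} [Field K] [CharZero K] [Field F] [Algebra K F] (v : Fin 2 → F)
    (h : ∃ P : MvPolynomial (Fin 2) K, P ≠ 0 ∧ aeval v P = 0) :
    ∃ (P : MvPolynomial (Fin 2) K) (i : Fin 2), aeval v P = 0 ∧ aeval v (pderiv i P) ≠ 0 := by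
  classical
  have hex : ∃ n : ℕ, ∃ P : MvPolynomial (Fin 2) K, P ≠ 0 ∧ P.totalDegree = n ∧ aeval v P = 0 := by
    obtain ⟨P, h1, h2⟩ := h
    exact ⟨_, P, h1, rfl, h2⟩
  obtain ⟨P, hP0, hPn, hP⟩ := Nat.find_spec hex
  have hmin := fun m (hm : m < Nat.find hex) => Nat.find_min hex hm
  by_contra hcon
  push Not at hcon
  have hz : ∀ i : Fin 2, pderiv i P = 0 := by
    intro i
    by_contra hne
    have h1 := totalDegree_pderiv_lt i P hne
    exact hmin _ (hPn ▸ h1) ⟨pderiv i P, hne, rfl, hcon P i hP⟩
  have hvars : (P.vars : Set (Fin 2)) ⊆ Set.range (Fin.elim0 : Fin 0 → Fin 2) := by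
    intro l hl
    exact absurd hl (notMem_vars_of_pderiv _ P (hz l))
  obtain ⟨Q, hQ⟩ := exists_rename_eq_of_vars_subset_range P (Fin.elim0 : Fin 0 → Fin 2)
    (fun a => a.elim0) hvars
  have hQC : Q = C (Q.coeff 0) := by
    have h3 := MvPolynomial.eq_C_of_isEmpty Q
    exact h3
  have h4 : P = C (Q.coeff 0) := by
    rw [← hQ, hQC, rename_C, coeff_C, if_pos rfl]
  rw [h4, aeval_C] at hP
  have h5 : Q.coeff 0 = 0 := (map_eq_zero_iff _ (algebraMap K F).injective).1 hP
  exact hP0 (by rw [h4, h5, map_zero])

/-- Dependent pairs have vanishing Jacobian. -/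
theorem jac_zero {K F G : Type} [Field K] [CharZero K] [Field F] [Algebra K F] [Field G]
    [Algebra K G] [Algebra F G] [IsScalarTower K F G] (D1 D2 : Derivation K G G) (x y : F)
    (h : ∃ P : MvPolynomial (Fin 2) K, P ≠ 0 ∧ aeval ![y, x] P = 0) :
    D1 (algebraMap F G x) * D2 (algebraMap F G y) -
      D2 (algebraMap F G x) * D1 (algebraMap F G y) = 0 := by
  obtain ⟨P, i, hP, hi⟩ := exists_pd ![y, x] h
  let v : Fin 2 → G := ![algebraMap F G y, algebraMap F G x]
  have hv : ∀ Q : MvPolynomial (Fin 2) K, aeval v Q = algebraMap F G (aeval ![y, x] Q) := by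
    intro Q
    have h1 : v = fun i => algebraMap F G ((![y, x] : Fin 2 → F) i) := by
      funext i
      fin_cases i <;> rfl
    rw [h1]
    exact (MvPolynomial.aeval_algebraMap_apply G (![y, x] : Fin 2 → F) Q)
  have hD : ∀ D : Derivation K G G, algebraMap F G (aeval ![y, x] (pderiv 0 P)) *
      D (algebraMap F G y) + algebraMap F G (aeval ![y, x] (pderiv 1 P)) *
        D (algebraMap F G x) = 0 := by
    intro D
    have h1 := der_aeval D v P
    rw [hv, hP, map_zero, map_zero, Fin.sum_univ_two, hv, hv] at h1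
    exact h1.symm
  have e1 := hD D1
  have e2 := hD D2
  set a := algebraMap F G (aeval ![y, x] (pderiv 0 P)) with ha
  set b := algebraMap F G (aeval ![y, x] (pderiv 1 P)) with hb
  have hab : a ≠ 0 ∨ b ≠ 0 := by
    have h2 : i = 0 ∨ i = 1 := by omega
    rcases h2 with rfl | rfl
    · left
      exact (map_ne_zero_iff _ (algebraMap F G).injective).2 hi
    · right
      exact (map_ne_zero_iff _ (algebraMap F G).injective).2 hi
  rcases hab with h3 | h3
  · refine (mul_eq_zero.1 ?_).resolve_left h3
    linear_combination D1 (algebraMap F G x) * e2 - D2 (algebraMap F G x) * e1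
  · refine (mul_eq_zero.1 ?_).resolve_left h3
    linear_combination D2 (algebraMap F G y) * e1 - D1 (algebraMap F G y) * e2

theorem bound_deg {K F : Type} [Field K] [CharZero K] [IsAlgClosed K] [Field F] [Algebra K F]
    {s : ℕ} (v : Fin s → F) :
    ∃ D : ℕ, ∀ m n : Fin s → K,
      (∃ P : MvPolynomial (Fin 2) K, P ≠ 0 ∧
        aeval ![∑ j, algebraMap K F (n j) * v j, ∑ j, algebraMap K F (m j) * v j] P = 0) →
      ¬ Good K D ![∑ j, algebraMap K F (n j) * v j, ∑ j, algebraMap K F (m j) * v j] := by
  classical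
  by_contra hcon
  push Not at hcon
  choose m n hP hG using hcon
  let x : ℕ → F := fun N => ∑ j, algebraMap K F (m N j) * v j
  let y : ℕ → F := fun N => ∑ j, algebraMap K F (n N j) * v j
  have hG' : ∀ N, Good K N ![y N, x N] := hG
  have hP' : ∀ N, ∃ P : MvPolynomial (Fin 2) K, P ≠ 0 ∧ aeval ![y N, x N] P = 0 := hP
  let U : Ultrafilter ℕ := Filter.hyperfilter ℕ
  let E := UP U K
  let G := UP U F
  let _ : Algebra E G := (UP.mapHom U K F).toAlgebra
  have hEG : ∀ f : ℕ → K, algebraMap E G (cl U K f) = cl U F (fun b => algebraMap K F (f b)) :=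
    fun _ => rfl
  have _ : IsScalarTower K E G := IsScalarTower.of_algebraMap_eq fun a => rfl
  have _ : IsScalarTower K F G := IsScalarTower.of_algebraMap_eq fun a => rfl
  have _ : CharZero E := charZero_of_injective_algebraMap (algebraMap K E).injective
  let ms : Fin s → E := fun j => cl U K fun N => m N j
  let ns : Fin s → E := fun j => cl U K fun N => n N j
  have hxs : ∀ (f : ℕ → Fin s → K), cl U F (fun N => ∑ j, algebraMap K F (f N j) * v j) =
      ∑ j, algebraMap E G (cl U K fun N => f N j) * algebraMap F G (v j) := by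
    intro f
    have h1 : (fun N => ∑ j, algebraMap K F (f N j) * v j) =
        ∑ j, (fun N => algebraMap K F (f N j)) * (fun _ => v j) := by
      funext N
      rw [Finset.sum_apply]
      rfl
    rw [h1, map_sum]
    refine Finset.sum_congr rfl fun j _ => ?_
    rw [map_mul, hEG]
    rfl
  -- algebraic independence
  have hAI : AlgebraicIndependent E ![cl U F y, cl U F x] := by
    rw [algebraicIndependent_iff]
    intro Q hQ
    set d := Q.totalDegree with hd
    choose c hc using fun α => cl_surj U K (Q.coeff α)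
    let P : ℕ → MvPolynomial (Fin 2) K := fun N => ∑ α ∈ lowDeg (Fin 2) d, monomial α (c α N)
    have hPc : ∀ N, ∀ α ∈ lowDeg (Fin 2) d, (P N).coeff α = c α N := by
      intro N α hα
      simp only [P]
      rw [coeff_sum, Finset.sum_eq_single α]
      · rw [coeff_monomial, if_pos rfl]
      · intro β _ hβ
        rw [coeff_monomial, if_neg hβ]
      · intro h3
        exact absurd hα h3
    have hPd : ∀ N, (P N).totalDegree ≤ d := by
      intro N
      refine (totalDegree_finsetSum _ _).trans (Finset.sup_le fun α hα => ?_)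
      refine (totalDegree_monomial_le _ _).trans ?_
      rw [Finsupp.sum_fintype _ _ (fun _ => rfl)]
      exact mem_lowDeg.1 hα
    have hpt : (![cl U F y, cl U F x] : Fin 2 → G) =
        fun l => cl U F (fun N => (![y N, x N] : Fin 2 → F) l) := by
      funext l
      fin_cases l <;> rfl
    have hval : aeval (![cl U F y, cl U F x] : Fin 2 → G) Q =
        cl U F (fun N => aeval ![y N, x N] (P N)) := by
      rw [aeval_eq_sum d _ Q hd.symm.le, hpt]
      have h1 : ∀ α ∈ lowDeg (Fin 2) d,
          Q.coeff α • mon (fun l => cl U F (fun N : ℕ => (![y N, x N] : Fin 2 → F) l)) α =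
          cl U F (fun N => (P N).coeff α • mon (![y N, x N] : Fin 2 → F) α) := by
        intro α hα
        rw [mon_cl U (fun N : ℕ => (![y N, x N] : Fin 2 → F)), ← hc α, Algebra.smul_def, hEG,
          ← map_mul]
        congr 1
        funext N
        rw [Algebra.smul_def, hPc N α hα]
        rfl
      rw [Finset.sum_congr rfl h1, ← map_sum]
      congr 1
      funext N
      rw [Finset.sum_apply, ← aeval_eq_sum d _ (P N) (hPd N)]
    rw [hval, cl_eq_zero] at hQ
    have hge : ∀ᶠ N in (U : Filter ℕ), d ≤ N := by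
      have h1 : ∀ᶠ N in Filter.cofinite, d ≤ N := by
        rw [Nat.cofinite_eq_atTop]
        exact Filter.eventually_ge_atTop d
      exact Filter.hyperfilter_le_cofinite h1
    have hz : ∀ᶠ N in (U : Filter ℕ), P N = 0 := by
      filter_upwards [hQ, hge] with N h1 h2
      exact hG' N (P N) ((hPd N).trans h2) h1
    ext α
    rw [coeff_zero]
    by_cases hα : α ∈ lowDeg (Fin 2) d
    · rw [← hc α, cl_eq_zero]
      filter_upwards [hz] with N hN
      rw [← hPc N α hα, hN, coeff_zero]
    · refine notMem_support_iff.1 fun h3 => hα ?_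
      rw [mem_lowDeg]
      have h2 := le_totalDegree h3
      rw [Finsupp.sum_fintype _ _ (fun _ => rfl)] at h2
      exact h2
  obtain ⟨D1, hD1⟩ := exists_der hAI ![0, 1]
  obtain ⟨D2, hD2⟩ := exists_der hAI ![1, 0]
  have a1 : D1 (cl U F y) = 0 := hD1 0
  have a2 : D1 (cl U F x) = 1 := hD1 1
  have a3 : D2 (cl U F y) = 1 := hD2 0
  have a4 : D2 (cl U F x) = 0 := hD2 1
  have hDs : ∀ (D : Derivation E G G) (f : ℕ → Fin s → K),
      D (cl U F (fun N => ∑ j, algebraMap K F (f N j) * v j)) =
        ∑ j, algebraMap E G (cl U K fun N => f N j) * D (algebraMap F G (v j)) := by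
    intro D f
    rw [hxs, map_sum]
    refine Finset.sum_congr rfl fun j _ => ?_
    rw [← Algebra.smul_def, D.map_smul, Algebra.smul_def]
  let M1 : Fin s → G := fun j => D1 (algebraMap F G (v j))
  let M2 : Fin s → G := fun j => D2 (algebraMap F G (v j))
  let w : Fin s × Fin s → G := fun q => M1 q.1 * M2 q.2 - M2 q.1 * M1 q.2
  have hdet : ∀ (κ : Type) [Field κ] [Algebra κ G] (a b : Fin s → κ),
      ∑ q : Fin s × Fin s, algebraMap κ G (a q.1 * b q.2) * w q =
        (∑ j, algebraMap κ G (a j) * M1 j) * (∑ j, algebraMap κ G (b j) * M2 j) -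
        (∑ j, algebraMap κ G (a j) * M2 j) * (∑ j, algebraMap κ G (b j) * M1 j) := by
    intro κ _ _ a b
    rw [Finset.sum_mul_sum, Finset.sum_mul_sum, ← Finset.sum_sub_distrib, Fintype.sum_prod_type]
    refine Finset.sum_congr rfl fun i _ => ?_
    rw [← Finset.sum_sub_distrib]
    refine Finset.sum_congr rfl fun j _ => ?_
    rw [map_mul]
    simp only [w]
    ring
  -- the space of relations
  let R : Submodule K (Fin s × Fin s → K) :=
    { carrier := {a | ∑ q, algebraMap K G (a q) * w q = 0}
      add_mem' := by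
        intro a b ha hb
        have ha' : ∑ q, algebraMap K G (a q) * w q = 0 := ha
        have hb' : ∑ q, algebraMap K G (b q) * w q = 0 := hb
        show ∑ q, algebraMap K G ((a + b) q) * w q = 0
        have h1 : ∀ q, algebraMap K G ((a + b) q) * w q =
            algebraMap K G (a q) * w q + algebraMap K G (b q) * w q := by
          intro q
          rw [Pi.add_apply, map_add, add_mul]
        rw [Finset.sum_congr rfl fun q _ => h1 q, Finset.sum_add_distrib, ha', hb', add_zero]
      zero_mem' := by
        show ∑ q, algebraMap K G ((0 : Fin s × Fin s → K) q) * w q = 0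
        refine Finset.sum_eq_zero fun q _ => ?_
        rw [Pi.zero_apply, map_zero, zero_mul]
      smul_mem' := by
        intro c a ha
        have ha' : ∑ q, algebraMap K G (a q) * w q = 0 := ha
        show ∑ q, algebraMap K G ((c • a) q) * w q = 0
        have h1 : ∀ q, algebraMap K G ((c • a) q) * w q =
            algebraMap K G c * (algebraMap K G (a q) * w q) := by
          intro q
          rw [Pi.smul_apply, smul_eq_mul, map_mul, mul_assoc]
        rw [Finset.sum_congr rfl fun q _ => h1 q, ← Finset.mul_sum, ha', mul_zero] }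
  have hR : ∀ N, (fun q : Fin s × Fin s => m N q.1 * n N q.2) ∈ R := by
    intro N
    show ∑ q : Fin s × Fin s, algebraMap K G (m N q.1 * n N q.2) * w q = 0
    rw [hdet K (m N) (n N)]
    have h1 := jac_zero (K := K) (F := F) (G := G) (D1.restrictScalars K) (D2.restrictScalars K)
      (x N) (y N) (hP' N)
    have h2 : ∀ (D : Derivation E G G) (f : Fin s → K),
        D (algebraMap F G (∑ j, algebraMap K F (f j) * v j)) =
          ∑ j, algebraMap K G (f j) * D (algebraMap F G (v j)) := by
      intro D f
      rw [map_sum, map_sum]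
      refine Finset.sum_congr rfl fun j _ => ?_
      rw [map_mul, ← IsScalarTower.algebraMap_apply, IsScalarTower.algebraMap_apply K E G,
        ← Algebra.smul_def, D.map_smul, Algebra.smul_def]
    have h3 : D1 (algebraMap F G (x N)) * D2 (algebraMap F G (y N)) -
      D2 (algebraMap F G (x N)) * D1 (algebraMap F G (y N)) = 0 := h1
    rw [h2, h2, h2, h2] at h3
    exact h3
  have hfin := ann U R w (fun a ha => ha) (fun N (q : Fin s × Fin s) => m N q.1 * n N q.2) hR
  have h1 : ∀ q : Fin s × Fin s, cl U K (fun N => m N q.1 * n N q.2) = ms q.1 * ns q.2 := by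
    intro q
    simp only [ms, ns]
    rw [← map_mul]
    rfl
  have h2 : ∑ q : Fin s × Fin s, algebraMap E G (ms q.1 * ns q.2) * w q = 0 := by
    rw [← hfin]
    refine Finset.sum_congr rfl fun q _ => ?_
    rw [h1 q]
    rfl
  rw [hdet E ms ns] at h2
  have b1 := hDs D1 m
  have b2 := hDs D1 n
  have b3 := hDs D2 m
  have b4 := hDs D2 n
  have c1 : ∑ j, algebraMap E G (ms j) * M1 j = 1 := b1.symm.trans a2
  have c2 : ∑ j, algebraMap E G (ns j) * M1 j = 0 := b2.symm.trans a1
  have c3 : ∑ j, algebraMap E G (ms j) * M2 j = 0 := b3.symm.trans a4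
  have c4 : ∑ j, algebraMap E G (ns j) * M2 j = 1 := b4.symm.trans a3
  rw [c1, c2, c3, c4] at h2
  simp at h2

end Pool.Agent.QGE
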