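import Pool.Agent.QGE.DefE

/-! # Theorem G-infinity: a relation of small total degree and a relation of small degree in `y`
give a relation with both bounds (Gauss' lemma) -/

set_option autoImplicit false

namespace Pool.Agent.QGE

open MvPolynomial Pool.Agent.QT

/-- a nonzero relation of least total degree is irreducible -/
theorem exists_irred {K L : Type} [Field K] [Field L] [Algebra K L] (v : Fin 2 → L) {D : ℕ}
    (h1 : ¬ Good K D v) :
    ∃ P : MvPolynomial (Fin 2) K, Irreducible P ∧ P.totalDegree ≤ D ∧ aeval v P = 0 := by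
  classical
  unfold Good at h1
  push Not at h1
  obtain ⟨P0, hP0D, hP0, hP00⟩ := h1
  have hex : ∃ n : ℕ, ∃ P : MvPolynomial (Fin 2) K,
      P.totalDegree = n ∧ aeval v P = 0 ∧ P ≠ 0 := ⟨_, P0, rfl, hP0, hP00⟩
  obtain ⟨P, hPn, hPv, hPne⟩ := Nat.find_spec hex
  have hle : Nat.find hex ≤ P0.totalDegree := Nat.find_min' hex ⟨P0, rfl, hP0, hP00⟩
  have hmin : ∀ R : MvPolynomial (Fin 2) K, aeval v R = 0 → R ≠ 0 →
      P.totalDegree ≤ R.totalDegree := by
    intro R hR hR0
    rw [hPn]
    exact Nat.find_min' hex ⟨R, rfl, hR, hR0⟩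
  have hconst : ∀ R : MvPolynomial (Fin 2) K, R ≠ 0 → R.totalDegree = 0 → IsUnit R := by
    intro R hR hR0
    rw [totalDegree_eq_zero_iff_eq_C] at hR0
    rw [hR0] at hR ⊢
    refine (isUnit_iff_ne_zero.2 ?_).map C
    intro h0
    rw [h0, C_0] at hR
    exact hR rfl
  refine ⟨P, ?_, by omega, hPv⟩
  rw [irreducible_iff]
  refine ⟨fun hu => ?_, fun a b hab => ?_⟩
  · have h2 := hu.map (aeval v : MvPolynomial (Fin 2) K →ₐ[K] L)
    rw [hPv] at h2
    exact not_isUnit_zero h2
  · have ha0 : a ≠ 0 := by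
      rintro rfl
      rw [zero_mul] at hab
      exact hPne hab
    have hb0 : b ≠ 0 := by
      rintro rfl
      rw [mul_zero] at hab
      exact hPne hab
    have hdeg := totalDegree_mul_of_isDomain ha0 hb0
    rw [← hab] at hdeg
    have h2 := hPv
    rw [hab, map_mul] at h2
    rcases mul_eq_zero.1 h2 with h3 | h3
    · right
      have := hmin a h3 ha0
      exact hconst b hb0 (by omega)
    · left
      have := hmin b h3 hb0
      exact hconst a ha0 (by omega)

/-- `aeval` through `finSuccEquiv` -/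
theorem aeval_finSucc {K L : Type} [Field K] [Field L] [Algebra K L] (x y : L)
    (P : MvPolynomial (Fin 2) K) :
    aeval ![y, x] P = Polynomial.eval₂
      ((aeval (fun _ : Fin 1 => x) : MvPolynomial (Fin 1) K →ₐ[K] L) : MvPolynomial (Fin 1) K →+* L)
      y (finSuccEquiv K 1 P) := by
  induction P using MvPolynomial.induction_on with
  | C a => simp [finSuccEquiv_apply]
  | add p q hp hq => rw [map_add, hp, hq, map_add, Polynomial.eval₂_add]
  | mul_X p i hp =>
    rw [map_mul, hp, map_mul, Polynomial.eval₂_mul]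
    congr 1
    fin_cases i
    · show aeval ![y, x] (X 0 : MvPolynomial (Fin 2) K) = Polynomial.eval₂ _ y
        (finSuccEquiv K 1 (X 0))
      rw [finSuccEquiv_X_zero, aeval_X, Polynomial.eval₂_X]
      rfl
    · show aeval ![y, x] (X (Fin.succ 0) : MvPolynomial (Fin 2) K) = Polynomial.eval₂ _ y
        (finSuccEquiv K 1 (X (Fin.succ 0)))
      rw [finSuccEquiv_X_succ, aeval_X, Polynomial.eval₂_C, RingHom.coe_coe, aeval_X]
      rfl

theorem gauss {K L : Type} [Field K] [Field L] [Algebra K L] (x y : L)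
    (hx : Transcendental K x) {D e : ℕ} (h1 : ¬ Good K D ![y, x])
    (h2 : ∃ Q : MvPolynomial (Fin 2) K, Q ≠ 0 ∧ Q.degreeOf 0 ≤ e ∧ aeval ![y, x] Q = 0) :
    ¬ GoodE K D e ![y, x] := by
  classical
  obtain ⟨P, hPi, hPD, hP⟩ := exists_irred ![y, x] h1
  obtain ⟨R, hR0, hRe, hR⟩ := h2
  intro hgood
  refine hPi.ne_zero (hgood P hPD ?_ hP)
  set ψ : MvPolynomial (Fin 1) K →+* L :=
    ((aeval (fun _ : Fin 1 => x) : MvPolynomial (Fin 1) K →ₐ[K] L) : MvPolynomial (Fin 1) K →+* L)
    with hψ
  have hind : AlgebraicIndependent K (fun _ : Fin 1 => x) := by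
    rw [algebraicIndependent_unique_type_iff]
    exact hx
  have hψi : Function.Injective ψ := hind
  set P' := finSuccEquiv K 1 P with hP'
  set R' := finSuccEquiv K 1 R with hR'
  have hPev : Polynomial.eval₂ ψ y P' = 0 := by rw [hP', ← aeval_finSucc, hP]
  have hRev : Polynomial.eval₂ ψ y R' = 0 := by rw [hR', ← aeval_finSucc, hR]
  have hPi' : Irreducible P' :=
    (MulEquiv.irreducible_iff (finSuccEquiv K 1).toMulEquiv).2 hPi
  have hR'0 : R' ≠ 0 := by
    intro h0
    exact hR0 ((EmbeddingLike.map_eq_zero_iff (f := finSuccEquiv K 1)).1 h0)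
  have hdeg : P'.natDegree ≠ 0 := by
    intro h0
    obtain ⟨a, ha⟩ := Polynomial.natDegree_eq_zero.1 h0
    rw [← ha, Polynomial.eval₂_C] at hPev
    have ha0 : a = 0 := hψi (hPev.trans (map_zero ψ).symm)
    rw [ha0, Polynomial.C_0] at ha
    exact hPi'.ne_zero ha.symm
  have hprim : P'.IsPrimitive := hPi'.isPrimitive hdeg
  let F := FractionRing (MvPolynomial (Fin 1) K)
  have hPF : Irreducible (P'.map (algebraMap (MvPolynomial (Fin 1) K) F)) :=
    (hprim.irreducible_iff_irreducible_map_fraction_map (K := F)).1 hPi'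
  let ψF : F →+* L := IsFractionRing.lift hψi
  have hψF : ψF.comp (algebraMap (MvPolynomial (Fin 1) K) F) = ψ := by
    refine RingHom.ext fun a => ?_
    rw [RingHom.comp_apply]
    exact IsFractionRing.lift_algebraMap hψi a
  have hPF0 : Polynomial.eval₂ ψF y (P'.map (algebraMap (MvPolynomial (Fin 1) K) F)) = 0 := by
    rw [Polynomial.eval₂_map, hψF, hPev]
  have hRF0 : Polynomial.eval₂ ψF y (R'.map (algebraMap (MvPolynomial (Fin 1) K) F)) = 0 := by
    rw [Polynomial.eval₂_map, hψF, hRev]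
  have hdvd : P'.map (algebraMap (MvPolynomial (Fin 1) K) F) ∣
      R'.map (algebraMap (MvPolynomial (Fin 1) K) F) := by
    by_contra hn
    obtain ⟨a, b, hab⟩ := hPF.coprime_iff_not_dvd.2 hn
    have h3 := congrArg (Polynomial.eval₂ ψF y) hab
    rw [Polynomial.eval₂_add, Polynomial.eval₂_mul, Polynomial.eval₂_mul, hPF0, hRF0, mul_zero,
      mul_zero, add_zero, Polynomial.eval₂_one] at h3
    exact zero_ne_one h3
  obtain ⟨M, hM⟩ := hprim.dvd_of_fraction_map_dvd_fraction_map hdvd
  have hM0 : M ≠ 0 := by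
    rintro rfl
    rw [mul_zero] at hM
    exact hR'0 hM
  have h4 : P'.natDegree ≤ R'.natDegree := by
    rw [hM, Polynomial.natDegree_mul hPi'.ne_zero hM0]
    exact Nat.le_add_right _ _
  rw [hP', hR', natDegree_finSuccEquiv, natDegree_finSuccEquiv] at h4
  exact h4.trans hRe

end Pool.Agent.QGE
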