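import Pool.Agent.QT.Pts

/-! # Theorem G-infinity: relations of bounded degree in one variable -/

set_option autoImplicit false

namespace Pool.Agent.QGE

open MvPolynomial

/-- `v` satisfies no nonzero relation of total degree at most `D` which has degree at most `e` in
the variable `0`. -/
def GoodE (K : Type) {L : Type} [Field K] [Field L] [Algebra K L] (D e : ℕ) (v : Fin 2 → L) :
    Prop :=
  ∀ P : MvPolynomial (Fin 2) K, P.totalDegree ≤ D → P.degreeOf 0 ≤ e → aeval v P = 0 → P = 0

end Pool.Agent.QGE
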