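import Pool.Agent.QN.Cmp
import Pool.Agent.QS.Rec
import Pool.Agent.QGen.Res

/-! # Theorem G-infinity, step (C), in the algebraic closure of `E(X)` -/

set_option autoImplicit false

namespace Pool.Agent.QGE

open MvPolynomial Pool.Agent.QS Pool.Agent.QN Pool.Agent.QGen

section

variable {K : Type} [Field K] [CharZero K] {k : ℕ} {M : Type} [Field M] [Algebra (A K k) M]
  [Algebra (Q K k) M] [IsScalarTower (A K k) (Q K k) M] [FiniteDimensional (Q K k) M]
  [IsGalois (Q K k) M]

/-- An element fixed by `H` without finite poles and with small poles at infinity satisfies a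
relation of total degree at most the number of the cosets of `H`. -/
theorem ExM_int {H : Subgroup (M ≃ₐ[Q K k] M)} (z : M) (hz : ∀ g ∈ H, g z = z)
    (hp : ∀ p : A K k, Prime p →
      ∃ (Γ : Type) (_ : LinearOrderedCommGroupWithZero Γ) (v : Valuation M Γ), IsPV p v ∧
        ∀ σ : M ≃ₐ[Q K k] M, v (σ z) ≤ 1)
    (j0 : Fin k) {Γ : Type} [LinearOrderedCommGroupWithZero Γ] (v : Valuation M Γ) (hv : IsIV K j0 v)
    (hi : ∀ σ : M ≃ₐ[Q K k] M, v (σ z) ≤ v (algebraMap (A K k) M (X j0))) :
    ExM (K := K) (k := k) (Fintype.card (Cs H)) z := by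
  classical
  obtain ⟨nQ, hmon, hnQ⟩ := cj_poly H z hz
  have hcoef : ∀ j, algebraMap (Q K k) M (nQ.coeff j) =
      (∏ q : Cs H, (Polynomial.X - Polynomial.C (cj H z q))).coeff j := by
    intro j
    rw [← hnQ, Polynomial.coeff_map]
  have hmem : ∀ j, ∃ a : A K k, algebraMap (A K k) (Q K k) a = nQ.coeff j := by
    intro j
    refine mem_of_vals (M := M) _ fun p hpp => ?_
    obtain ⟨Γ', _, w, hw, hle⟩ := hp p hpp
    refine ⟨Γ', _, w, hw, ?_⟩
    rw [hcoef]
    have h1 := coeff_prod_le w 1 (cj H z) Finset.univ j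
    rw [one_pow, mul_one] at h1
    exact h1.trans (Finset.prod_le_one' fun q _ => max_le le_rfl (hle _))
  choose a ha using hmem
  let R : Polynomial (A K k) := ∑ j ∈ Finset.range (nQ.natDegree + 1), Polynomial.monomial j (a j)
  have hRc : ∀ j, algebraMap (A K k) (Q K k) (R.coeff j) = nQ.coeff j := by
    intro j
    simp only [R, Polynomial.finsetSum_coeff, Polynomial.coeff_monomial]
    rw [Finset.sum_ite_eq' (Finset.range (nQ.natDegree + 1)) j a]
    split_ifs with hj
    · exact ha j
    · rw [map_zero, Polynomial.coeff_eq_zero_of_natDegree_lt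
        (by rw [Finset.mem_range] at hj; omega)]
  have hRM : ∀ j, algebraMap (A K k) M (R.coeff j) =
      (∏ q : Cs H, (Polynomial.X - Polynomial.C (cj H z q))).coeff j := by
    intro j
    rw [IsScalarTower.algebraMap_apply (A K k) (Q K k) M, hRc, hcoef]
  have hinj : Function.Injective (algebraMap (A K k) (Q K k)) := IsFractionRing.injective _ _
  refine ⟨R, ?_, ?_, ?_⟩
  · intro h0
    have h1 := hRc nQ.natDegree
    rw [h0, Polynomial.coeff_zero, map_zero, Polynomial.coeff_natDegree, hmon.leadingCoeff] at h1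
    exact zero_ne_one h1
  · unfold wd
    refine Finset.sup_le fun j hj => ?_
    have hne : R.coeff j ≠ 0 := Polynomial.mem_support_iff.1 hj
    have h1 : v (algebraMap (A K k) M (R.coeff j)) *
        v (algebraMap (A K k) M (X j0)) ^ j ≤
          v (algebraMap (A K k) M (X j0)) ^ Fintype.card (Cs H) := by
      rw [hRM]
      refine (coeff_prod_le v _ (cj H z) Finset.univ j).trans ?_
      refine (Finset.prod_le_prod' fun q _ => max_le le_rfl (hi _)).trans ?_
      rw [Finset.prod_const, Finset.card_univ]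
    rw [hv.val _ hne, ← pow_add] at h1
    exact (pow_le_pow_iff_right₀ hv.one_lt).1 h1
  · have h1 : Polynomial.aeval z R = Polynomial.eval z (R.map (algebraMap (A K k) M)) := by
      rw [Polynomial.eval_map_algebraMap]
    have h2 : R.map (algebraMap (A K k) M) =
        ∏ q : Cs H, (Polynomial.X - Polynomial.C (cj H z q)) := by
      ext j
      rw [Polynomial.coeff_map, hRM]
    rw [h1, h2, Polynomial.eval_prod]
    refine Finset.prod_eq_zero (Finset.mem_univ (Cs.mk H 1)) ?_
    rw [cj_mk H z hz 1]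
    simp

omit [CharZero K] [IsGalois (Q K k) M] in
/-- The number of the conjugates. -/
theorem card_Cs_le (y : M) (H : Subgroup (M ≃ₐ[Q K k] M))
    (hH : ∀ σ : M ≃ₐ[Q K k] M, σ ∈ H ↔ σ y = y) (R : Polynomial (A K k)) (hR0 : R ≠ 0)
    (hR : Polynomial.aeval y R = 0) : Fintype.card (Cs H) ≤ R.natDegree := by
  classical
  have hinj : Function.Injective (algebraMap (A K k) M) := by
    rw [IsScalarTower.algebraMap_eq (A K k) (Q K k) M]
    exact (algebraMap (Q K k) M).injective.comp (IsFractionRing.injective _ _)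
  have hne : R.map (algebraMap (A K k) M) ≠ 0 := (Polynomial.map_ne_zero_iff hinj).2 hR0
  have hroot : ∀ q : Cs H, (R.map (algebraMap (A K k) M)).IsRoot (cj H y q) := by
    intro q
    obtain ⟨σ, hσ⟩ : ∃ σ : M ≃ₐ[Q K k] M, cj H y q = σ y := ⟨_, rfl⟩
    have h1 : Polynomial.aeval (cj H y q) (R.map (algebraMap (A K k) (Q K k))) = 0 := by
      have h2 : Polynomial.aeval y (R.map (algebraMap (A K k) (Q K k))) = 0 := by
        rw [Polynomial.aeval_map_algebraMap]
        exact hR
      have h3 := congrArg σ h2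
      rw [map_zero] at h3
      rw [← h3, hσ]
      exact (Polynomial.aeval_algHom_apply σ.toAlgHom y _)
    rw [Polynomial.aeval_map_algebraMap] at h1
    rw [Polynomial.IsRoot.def, Polynomial.eval_map_algebraMap]
    exact h1
  have h1 : Fintype.card (Cs H) ≤ (R.map (algebraMap (A K k) M)).roots.toFinset.card := by
    rw [← Finset.card_univ]
    refine Finset.card_le_card_of_injOn (cj H y) (fun q _ => ?_) (cj_injective H y hH).injOn
    rw [Finset.mem_coe, Multiset.mem_toFinset, Polynomial.mem_roots hne]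
    exact hroot q
  refine h1.trans ((Multiset.toFinset_card_le _).trans ((Polynomial.card_roots' _).trans ?_))
  exact Polynomial.natDegree_map_le

end

theorem omeE_field {E : Type} [Field E] [CharZero E] (y : Om E 1) :
    ∃ M : IntermediateField (Q E 1) (Om E 1), FiniteDimensional (Q E 1) M ∧
      IsGalois (Q E 1) M ∧ IntermediateField.adjoin (Q E 1) {y} ≤ M := by
  let L : IntermediateField (Q E 1) (Om E 1) := IntermediateField.adjoin (Q E 1) {y}
  have hL : FiniteDimensional (Q E 1) L :=
    IntermediateField.finiteDimensional_adjoin fun x _ => Algebra.IsIntegral.isIntegral x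
  exact ⟨IntermediateField.normalClosure (Q E 1) L (Om E 1), inferInstance, ⟨⟩,
    IntermediateField.le_normalClosure L⟩

theorem ex_allE {K E : Type} [Field K] [IsAlgClosed K] [Field E] [CharZero E] [Algebra K E]
    {r d : ℕ} (m : Fin r → E) (hm : LinearIndependent K m) (ζ : Fin r → Om E 1)
    (hx : ∑ j, algebraMap E (Om E 1) (m j) * ζ j = gx E 1 0)
    (hK : ∀ i j, ∃ R : MvPolynomial (Fin 2) K, R ≠ 0 ∧
      eval₂ ((algebraMap E (Om E 1)).comp (algebraMap K E)) ![ζ i, ζ j] R = 0)
    (y : Om E 1)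
    (hy : ∃ R : Polynomial (A E 1), R ≠ 0 ∧ R.natDegree ≤ d ∧ Polynomial.aeval y R = 0) (hζ : ∀ j, ζ j ∈ IntermediateField.adjoin (Q E 1) {y})
    (c : Fin r → E) : Ex E 1 d (∑ j, algebraMap E (Om E 1) (c j) * ζ j) := by
  classical
  obtain ⟨M, hMf, hMg, hyM⟩ := omeE_field y
  have i1 : IsScalarTower (A E 1) (Q E 1) M := inferInstance
  have i2 : IsScalarTower E (Q E 1) M := inferInstance
  have i5 : IsScalarTower (A E 1) M (Om E 1) := IsScalarTower.of_algebraMap_eq fun a => rfl
  let g : M →+* Om E 1 := M.val.toRingHom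
  have hg : Function.Injective g := Subtype.val_injective
  have hEx : ∀ z : M, ExM (K := E) (k := 1) d z ↔ Ex E 1 d (g z) := by
    intro z
    rw [Ex_iff]
    have h1 : ∀ R : Polynomial (A E 1), Polynomial.aeval (g z) R = g (Polynomial.aeval z R) := by
      intro R
      exact Polynomial.aeval_algebraMap_apply (R := A E 1) (A := M) (Om E 1) z R
    constructor
    · rintro ⟨R, hR, hw, h⟩
      exact ⟨R, hR, hw, by rw [h1, h, map_zero]⟩
    · rintro ⟨R, hR, hw, h⟩
      refine ⟨R, hR, hw, hg ?_⟩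
      rw [← h1, h, map_zero]
  let y' : M := ⟨y, hyM (IntermediateField.mem_adjoin_simple_self _ y)⟩
  let ζ' : Fin r → M := fun j => ⟨ζ j, hyM (hζ j)⟩
  have hgE : ∀ e : E, g (algebraMap E M e) = algebraMap E (Om E 1) e := fun e => rfl
  have hgζ : ∀ j, g (ζ' j) = ζ j := fun j => rfl
  let H : Subgroup (M ≃ₐ[Q E 1] M) := MulAction.stabilizer (M ≃ₐ[Q E 1] M) y'
  have hH : ∀ σ : M ≃ₐ[Q E 1] M, σ ∈ H ↔ σ y' = y' := fun σ => MulAction.mem_stabilizer_iff
  have hcard : Fintype.card (Cs H) ≤ d := by
    obtain ⟨R, hR0, hRd, hR⟩ := hy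
    refine (card_Cs_le y' H hH R hR0 ?_).trans hRd
    apply hg
    rw [map_zero, ← hR]
    exact (Polynomial.aeval_algebraMap_apply (R := A E 1) (A := M) (Om E 1) y' R).symm
  -- the `ζ'` are fixed by `H`
  have hfix : ∀ σ ∈ H, ∀ j, σ (ζ' j) = ζ' j := by
    intro σ hσ j
    have h1 : ζ' j ∈ IntermediateField.adjoin (Q E 1) {y'} := by
      have h2 : (IntermediateField.adjoin (Q E 1) {y'}).map M.val =
          IntermediateField.adjoin (Q E 1) {y} := by
        rw [IntermediateField.adjoin_map, Set.image_singleton]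
        rfl
      have h3 : ζ j ∈ (IntermediateField.adjoin (Q E 1) {y'}).map M.val := by
        rw [h2]
        exact hζ j
      obtain ⟨w, hw, hwj⟩ := h3
      have : w = ζ' j := hg hwj
      rw [← this]
      exact hw
    have h4 : IntermediateField.adjoin (Q E 1) {y'} ≤
        IntermediateField.fixedField (Subgroup.zpowers σ) := by
      rw [IntermediateField.adjoin_simple_le_iff]
      rintro ⟨τ, hτ⟩
      obtain ⟨k, rfl⟩ := Subgroup.mem_zpowers_iff.1 hτ
      have : σ ^ k ∈ H := H.zpow_mem hσ k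
      exact (hH _).1 this
    have h5 := h4 h1
    exact h5 ⟨σ, Subgroup.mem_zpowers σ⟩
  -- the generic combination
  have hx' : ∀ σ : M ≃ₐ[Q E 1] M, ∑ j, algebraMap E M (m j) * σ (ζ' j) =
      algebraMap (A E 1) M (X 0) := by
    intro σ
    have h1 : ∑ j, algebraMap E M (m j) * ζ' j = algebraMap (A E 1) M (X 0) := by
      apply hg
      rw [map_sum]
      exact hx
    have h2 := congrArg σ h1
    rw [map_sum, IsScalarTower.algebraMap_apply (A E 1) (Q E 1) M, σ.commutes] at h2
    rw [IsScalarTower.algebraMap_apply (A E 1) (Q E 1) M, ← h2]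
    refine Finset.sum_congr rfl fun j _ => ?_
    rw [map_mul, IsScalarTower.algebraMap_apply E (Q E 1) M, σ.commutes]
  have hKM : ∀ (σ : M ≃ₐ[Q E 1] M) (i j : Fin r), ∃ R : MvPolynomial (Fin 2) K, R ≠ 0 ∧
      eval₂ ((algebraMap E M).comp (algebraMap K E)) ![σ (ζ' i), σ (ζ' j)] R = 0 := by
    intro σ i j
    obtain ⟨R, hR, h⟩ := hK i j
    refine ⟨R, hR, ?_⟩
    have h1 : eval₂ ((algebraMap E M).comp (algebraMap K E)) ![ζ' i, ζ' j] R = 0 := by
      apply hg
      rw [map_zero, ← h, eval₂_comp_left]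
      congr 1
      funext l
      fin_cases l <;> rfl
    have h2 := congrArg (σ : M →+* M) h1
    rw [map_zero, eval₂_comp_left] at h2
    rw [← h2]
    congr 1
    · refine RingHom.ext fun e => ?_
      change algebraMap E M (algebraMap K E e) = σ (algebraMap E M (algebraMap K E e))
      rw [IsScalarTower.algebraMap_apply E (Q E 1) M, σ.commutes]
    · funext l
      fin_cases l <;> rfl
  -- the bound for one valuation
  have hbd : ∀ (Γ : Type) [LinearOrderedCommGroupWithZero Γ] (v : Valuation M Γ)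
      (_ : ∀ e : E, e ≠ 0 → v (algebraMap E M e) = 1) (σ : M ≃ₐ[Q E 1] M),
      v (σ (∑ j, algebraMap E M (c j) * ζ' j)) ≤ max 1 (v (algebraMap (A E 1) M (X 0))) := by
    intro Γ _ v hv σ
    rw [map_sum]
    refine v.map_sum_le fun j _ => ?_
    rw [map_mul, IsScalarTower.algebraMap_apply E (Q E 1) M, σ.commutes,
      ← IsScalarTower.algebraMap_apply E (Q E 1) M, map_mul]
    have h1 := res (algebraMap E M) v hv m hm (fun j => σ (ζ' j)) (hKM σ) j
    rw [hx' σ] at h1
    rcases eq_or_ne (c j) 0 with h2 | h2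
    · rw [h2, map_zero, map_zero, zero_mul]
      exact zero_le
    · rw [hv _ h2, one_mul]
      exact h1
  have key := ExM_int (H := H) (∑ j, algebraMap E M (c j) * ζ' j) (fun σ hσ => by
      rw [map_sum]
      refine Finset.sum_congr rfl fun j _ => ?_
      rw [map_mul, hfix σ hσ j, IsScalarTower.algebraMap_apply E (Q E 1) M, σ.commutes])
    (fun p hp => by
      obtain ⟨Γ, _, v, hv⟩ := exists_PV (M := M) p hp
      refine ⟨Γ, _, v, hv, fun σ => ?_⟩
      refine (hbd Γ v (fun e he => ?_) σ).trans (max_le le_rfl (hv.le_one _))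
      exact hv.const hp e he)
  obtain ⟨Γ, _, v, hv⟩ := exists_IV (K := E) (M := M) (0 : Fin 1)
  have key2 := key 0 v hv (fun σ => by
    refine (hbd Γ v (fun e he => hv.const e he) σ).trans (max_le ?_ le_rfl)
    exact le_of_lt hv.one_lt)
  obtain ⟨R, hR, hw, h⟩ := key2
  have h6 : ExM (K := E) (k := 1) d (∑ j, algebraMap E M (c j) * ζ' j) :=
    ⟨R, hR, hw.trans hcard, h⟩
  have h7 := (hEx _).1 h6
  rw [map_sum] at h7
  exact h7

end Pool.Agent.QGE
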