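import Pool.Agent.QGen.Trans
import Pool.Agent.QGE.DefE
import Pool.Agent.QGE.OmExE

/-! # Theorem G-infinity, step (C): back to `G` -/

set_option autoImplicit false

namespace Pool.Agent.QGE

open MvPolynomial Pool.Agent.GenTuple Pool.Agent.QT Pool.Agent.QS Pool.Agent.QGen

theorem aeval_fse {E : Type} [Field E] (η : Om E 1) (P : MvPolynomial (Fin (1 + 1)) E) :
    aeval (Fin.cons η (gx E 1) : Fin (1 + 1) → Om E 1) P =
      Polynomial.aeval η (finSuccEquiv E 1 P) := by
  have h : (aeval (Fin.cons η (gx E 1) : Fin (1 + 1) → Om E 1) :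
      MvPolynomial (Fin (1 + 1)) E →ₐ[E] Om E 1) =
      ((Polynomial.aeval η : Polynomial (A E 1) →ₐ[A E 1] Om E 1).restrictScalars E).comp
        (finSuccEquiv E 1).toAlgHom := by
    refine MvPolynomial.algHom_ext fun i => ?_
    refine Fin.cases ?_ (fun j => ?_) i
    · rw [aeval_X, Fin.cons_zero]
      simp [finSuccEquiv_X_zero]
    · rw [aeval_X, Fin.cons_succ]
      simp [finSuccEquiv_X_succ, gx]
  exact DFunLike.congr_fun h P

theorem all_relE {K E F G : Type} [Field K] [CharZero K] [IsAlgClosed K] [Field E] [IsAlgClosed E]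
    [Field F] [Field G] [Algebra K E] [Algebra K F] [Algebra K G] [Algebra E G] [Algebra F G]
    [IsScalarTower K E G] [IsScalarTower K F G] (h : Disj K E F G) {r D e : ℕ} (t : Fin r → F)
    (ht : ∀ (c0 : K) (c : Fin r → K),
      algebraMap K F c0 + ∑ j, algebraMap K F (c j) * t j = 0 → c0 = 0 ∧ ∀ j, c j = 0)
    (m : Fin r → E) (hm : AlgebraicIndependent K m) (hr : 0 < r) (x y : G)
    (hx : x = ∑ j, algebraMap E G (m j) * algebraMap F G (t j))
    (hrelE : ¬ GoodE E D e ![y, x])
    (hmem : ∀ j, algebraMap F G (t j) ∈ IntermediateField.adjoin E {x, y}) (c : Fin r → E) :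
    ¬ Good E e ![∑ j, algebraMap E G (c j) * algebraMap F G (t j), x] := by
  classical
  have hrel : ¬ Good E D ![y, x] := fun hg => hrelE fun P h1 _ h2 => hg P h1 h2
  have hCE : CharZero E := charZero_of_injective_algebraMap (algebraMap K E).injective
  have hm0 : m ≠ 0 := fun h0 => hm.ne_zero ⟨0, hr⟩ (by rw [h0]; rfl)
  have hxt : Transcendental E x := by
    rw [hx]
    exact transc_x h t ht m hm0
  obtain ⟨φ, x', y', hx', hy', hφx, hφ⟩ := exists_emb x y hxt hrel
  have hinj : Function.Injective φ := φ.toRingHom.injective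
  -- relations in `G` and in `Om`
  have hval : ∀ (z : IntermediateField.adjoin E {x, y}) (R : MvPolynomial (Fin 2) E),
      aeval ![(z : G), x] R = 0 ↔
        aeval (Fin.cons (φ z) (gx E 1) : Fin (1 + 1) → Om E 1) R = 0 := by
    intro z R
    have h1 : ((aeval ![z, x'] R : IntermediateField.adjoin E {x, y}) : G) =
        aeval ![(z : G), x] R := by
      have h2 : (IntermediateField.adjoin E {x, y}).val (aeval ![z, x'] R) =
          aeval ![(z : G), x] R := by
        rw [← AlgHom.comp_apply, comp_aeval]
        congr 2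
        funext l
        fin_cases l
        · rfl
        · exact hx'
      exact h2
    have h3 : φ (aeval ![z, x'] R) =
        aeval (Fin.cons (φ z) (gx E 1) : Fin (1 + 1) → Om E 1) R := by
      rw [← AlgHom.comp_apply, comp_aeval]
      congr 2
      funext l
      refine Fin.cases ?_ (fun l => ?_) l
      · rfl
      · have hl : l = 0 := Subsingleton.elim _ _
        subst hl
        exact hφx
    rw [← h1, ← h3, map_eq_zero_iff φ hinj]
    exact ZeroMemClass.coe_eq_zero
  have hEx : ∃ R : Polynomial (A E 1), R ≠ 0 ∧ R.natDegree ≤ e ∧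
      Polynomial.aeval (φ y') R = 0 := by
    have h1 := hrelE
    unfold GoodE at h1
    push Not at h1
    obtain ⟨P, _, hPe, hP0, hPne⟩ := h1
    refine ⟨finSuccEquiv E 1 P, ?_, ?_, ?_⟩
    · rwa [Ne, EmbeddingLike.map_eq_zero_iff]
    · rwa [natDegree_finSuccEquiv]
    · rw [← aeval_fse]
      refine (hval y' P).1 ?_
      rw [hy', hP0]
  let τ : Fin r → IntermediateField.adjoin E {x, y} := fun j => ⟨algebraMap F G (t j), hmem j⟩
  have hτ : ∀ j, (τ j : G) = algebraMap F G (t j) := fun _ => rfl
  have hsum : ∀ c : Fin r → E,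
      ((∑ j, algebraMap E (IntermediateField.adjoin E {x, y}) (c j) * τ j :
        IntermediateField.adjoin E {x, y}) : G) =
          ∑ j, algebraMap E G (c j) * algebraMap F G (t j) := by
    intro c
    have h1 : (IntermediateField.adjoin E {x, y}).val
        (∑ j, algebraMap E (IntermediateField.adjoin E {x, y}) (c j) * τ j) =
          ∑ j, algebraMap E G (c j) * algebraMap F G (t j) := by
      rw [map_sum]
      exact Finset.sum_congr rfl fun j _ => rfl
    exact h1
  have hφsum : ∀ c : Fin r → E,
      φ (∑ j, algebraMap E (IntermediateField.adjoin E {x, y}) (c j) * τ j) =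
        ∑ j, algebraMap E (Om E 1) (c j) * φ (τ j) := by
    intro c
    rw [map_sum]
    refine Finset.sum_congr rfl fun j _ => ?_
    rw [map_mul, φ.commutes]
  have key := ex_allE (K := K) (d := e) m hm.linearIndependent (fun j => φ (τ j)) (by
      rw [← hφsum, ← hφx]
      congr 1
      apply Subtype.val_injective
      rw [hsum, hx', hx])
    (fun i j => by
      obtain ⟨R, hR, hR0⟩ := pair_rel h t x y hxt hrel hmem i j
      refine ⟨R, hR, ?_⟩
      have h1 : eval₂ ((algebraMap E (IntermediateField.adjoin E {x, y})).comp (algebraMap K E))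
          ![τ i, τ j] R = 0 := by
        apply (algebraMap (IntermediateField.adjoin E {x, y}) G).injective
        rw [map_zero, eval₂_comp_left]
        have h2 := congrArg (algebraMap F G) hR0
        rw [map_zero, aeval_def, eval₂_comp_left] at h2
        rw [← h2]
        congr 1
        · refine RingHom.ext fun e => ?_
          change algebraMap E G (algebraMap K E e) = algebraMap F G (algebraMap K F e)
          rw [← IsScalarTower.algebraMap_apply, ← IsScalarTower.algebraMap_apply]
        · funext l
          fin_cases l <;> rfl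
      have h2 := congrArg φ.toRingHom h1
      rw [map_zero, eval₂_comp_left] at h2
      rw [← h2]
      congr 1
      · refine RingHom.ext fun e => ?_
        exact (φ.commutes (algebraMap K E e)).symm
      · funext l
        fin_cases l <;> rfl)
    (φ y') hEx (fun j => hφ (τ j)) c
  rw [← hφsum] at key
  obtain ⟨P, hP, hPd, hP0⟩ := key
  intro hg
  refine hP (hg P hPd ?_)
  have h1 := (hval _ P).2 hP0
  rw [hsum] at h1
  exact h1

end Pool.Agent.QGE
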