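import Pool.Agent.QGen.Alg2
import Pool.Agent.QGen.Pts
import Pool.Agent.QGE.BoundE
import Pool.Agent.QGE.GaussE
import Pool.Agent.QGE.UltraE
import Pool.Agent.QGE.TransE

/-! # Theorem G-infinity over an algebraically closed field -/

set_option autoImplicit false

namespace Pool.Agent.QGE

open MvPolynomial Pool.Agent.GenTuple Pool.Agent.QT Pool.Agent.QGen

/-- the end of the argument -/
theorem endE {K E F G : Type} [Field K] [CharZero K] [IsAlgClosed K] [Field E] [IsAlgClosed E]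
    [Field F] [Field G] [Algebra K E] [Algebra K F] [Algebra K G] [Algebra E G] [Algebra F G]
    [IsScalarTower K E G] [IsScalarTower K F G] (h : Disj K E F G) {r D e : ℕ} (her : e < r)
    (t : Fin r → F)
    (ht : ∀ (c0 : K) (c : Fin r → K),
      algebraMap K F c0 + ∑ j, algebraMap K F (c j) * t j = 0 → c0 = 0 ∧ ∀ j, c j = 0)
    (m : Fin r → E) (hm : AlgebraicIndependent K m) (x y : G)
    (hx : x = ∑ j, algebraMap E G (m j) * algebraMap F G (t j))
    (hrel : ¬ GoodE E D e ![y, x])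
    (hmem : ∀ j, algebraMap F G (t j) ∈ IntermediateField.adjoin E {x, y}) : False := by
  have h2 := all_relE h t ht m hm (by omega) x y hx hrel hmem
  rw [hx] at h2
  have h3 := dim_le (fun j => algebraMap F G (t j)) (fun c0 c => indep_E h t ht c0 c) m
    (fun h => hm.ne_zero ⟨0, by omega⟩ (by rw [h]; rfl)) h2
  omega

/-- **Theorem G-infinity, one space.** -/
theorem genericE {K F : Type} [Field K] [CharZero K] [IsAlgClosed K] [Field F] [Algebra K F]
    {r e : ℕ} (her : e < r) (t : Fin r → F)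
    (ht : ∀ (c0 : K) (c : Fin r → K),
      algebraMap K F c0 + ∑ j, algebraMap K F (c j) * t j = 0 → c0 = 0 ∧ ∀ j, c j = 0) :
    ∃ Φ : MvPolynomial (Fin r) K, Φ ≠ 0 ∧ ∀ m n : Fin r → K, eval m Φ ≠ 0 →
      (∀ c : K, n ≠ c • m) →
      ∀ Q : MvPolynomial (Fin 2) K, Q ≠ 0 → Q.degreeOf 0 ≤ e →
        aeval ![∑ j, algebraMap K F (n j) * t j, ∑ j, algebraMap K F (m j) * t j] Q ≠ 0 := by
  obtain ⟨D, hD⟩ := bound_deg (K := K) t
  obtain ⟨Φ, hΦ, h⟩ := ultraE (D := D) (e := e) t t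
    fun E G _ _ _ _ _ _ _ _ _ hd m n hm hout hrel => by
      have hrel' : ¬ Good E D ![∑ j, algebraMap E G (n j) * algebraMap F G (t j),
          ∑ j, algebraMap E G (m j) * algebraMap F G (t j)] :=
        fun hg => hrel fun P h1 _ h2 => hg P h1 h2
      refine endE hd her t ht m hm _ _ rfl hrel
        (mem_adjoin hd t ht m n hm (fun c hc => ?_) _ _ rfl rfl hrel')
      apply hout 0 c
      rw [hc, map_zero, zero_add, Finset.mul_sum]
      refine Finset.sum_congr rfl fun j _ => ?_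
      rw [Pi.smul_apply, smul_eq_mul, map_mul, mul_assoc]
  have hr0 : 0 < r := by omega
  refine ⟨Φ * X ⟨0, hr0⟩, mul_ne_zero hΦ (X_ne_zero _), fun m n hm hn Q hQ hQe hQ0 => ?_⟩
  rw [map_mul, eval_X] at hm
  have hm0 : m ≠ 0 := fun h0 => (right_ne_zero_of_mul hm) (by rw [h0]; rfl)
  have hxt : Transcendental K (∑ j, algebraMap K F (m j) * t j) := by
    intro halg
    obtain ⟨e, he⟩ := alg_mem_range _ halg
    exact hm0 (funext (ht (-e) m (by rw [map_neg, he, neg_add_cancel])).2)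
  refine gauss _ _ hxt (hD m n ⟨Q, hQ, hQ0⟩) ⟨Q, hQ, hQe, hQ0⟩
    (h m n (left_ne_zero_of_mul hm) fun c0 c hc => hn c ?_)
  have h1 := ht (-c0) (fun j => n j - c * m j) (by
    rw [map_neg]
    simp only [map_sub, map_mul, sub_mul, Finset.sum_sub_distrib, mul_assoc]
    rw [← Finset.mul_sum, hc]
    ring)
  funext j
  exact sub_eq_zero.1 (h1.2 j)

/-- **Theorem G-infinity, two spaces.** -/
theorem genericE2 {K F : Type} [Field K] [CharZero K] [IsAlgClosed K] [Field F] [Algebra K F]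
    {r b e : ℕ} (her : e < r) (hb : b < r) (t : Fin r → F)
    (ht : ∀ (c0 : K) (c : Fin r → K),
      algebraMap K F c0 + ∑ j, algebraMap K F (c j) * t j = 0 → c0 = 0 ∧ ∀ j, c j = 0)
    (p : Fin b → F)
    (hp : ∀ (c0 : K) (c : Fin b → K),
      algebraMap K F c0 + ∑ j, algebraMap K F (c j) * p j = 0 → c0 = 0 ∧ ∀ j, c j = 0) :
    ∃ Φ : MvPolynomial (Fin r) K, Φ ≠ 0 ∧ ∀ (m : Fin r → K) (n : Fin b → K), eval m Φ ≠ 0 →
      (∀ c0 c : K, ∑ j, algebraMap K F (n j) * p j ≠
        algebraMap K F c0 + algebraMap K F c * ∑ j, algebraMap K F (m j) * t j) →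
      ∀ Q : MvPolynomial (Fin 2) K, Q ≠ 0 → Q.degreeOf 0 ≤ e →
        aeval ![∑ j, algebraMap K F (n j) * p j, ∑ j, algebraMap K F (m j) * t j] Q ≠ 0 := by
  classical
  obtain ⟨D, hD⟩ := bound_deg (K := K) (Fin.append t p)
  obtain ⟨Φ, hΦ, h⟩ := ultraE (D := D) (e := e) t p
    fun E G _ _ _ _ _ _ _ _ _ hd m n hm hout hrel => by
      have hrel' : ¬ Good E D ![∑ j, algebraMap E G (n j) * algebraMap F G (p j),
          ∑ j, algebraMap E G (m j) * algebraMap F G (t j)] :=
        fun hg => hrel fun P h1 _ h2 => hg P h1 h2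
      refine endE hd her t ht m hm _ _ rfl hrel
        (mem_adjoin2 hd hb t ht p hp m n hm (fun hn => ?_) _ _ rfl rfl hrel')
      apply hout 0 0
      rw [hn]
      simp
  have hr0 : 0 < r := by omega
  refine ⟨Φ * X ⟨0, hr0⟩, mul_ne_zero hΦ (X_ne_zero _), fun m n hm hn Q hQ hQe hQ0 => ?_⟩
  rw [map_mul, eval_X] at hm
  have hm0 : m ≠ 0 := fun h0 => (right_ne_zero_of_mul hm) (by rw [h0]; rfl)
  have hxt : Transcendental K (∑ j, algebraMap K F (m j) * t j) := by
    intro halg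
    obtain ⟨e, he⟩ := alg_mem_range _ halg
    exact hm0 (funext (ht (-e) m (by rw [map_neg, he, neg_add_cancel])).2)
  have e1 : ∑ j, algebraMap K F ((Fin.append (fun _ => 0) n : Fin (r + b) → K) j) *
      (Fin.append t p : Fin (r + b) → F) j = ∑ j, algebraMap K F (n j) * p j := by
    rw [Fin.sum_univ_add]
    simp
  have e2 : ∑ j, algebraMap K F ((Fin.append m (fun _ => 0) : Fin (r + b) → K) j) *
      (Fin.append t p : Fin (r + b) → F) j = ∑ j, algebraMap K F (m j) * t j := by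
    rw [Fin.sum_univ_add]
    simp
  have hD' := hD (Fin.append m fun _ => 0) (Fin.append (fun _ => 0) n)
    ⟨Q, hQ, by rw [e1, e2]; exact hQ0⟩
  rw [e1, e2] at hD'
  exact gauss _ _ hxt hD' ⟨Q, hQ, hQe, hQ0⟩ (h m n (left_ne_zero_of_mul hm) hn)

end Pool.Agent.QGE
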