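import Pool.Agent.QGE.CoreE
import Pool.Agent.QGT.FinU

/-! # Theorem G-infinity over `ℂ`, homogeneous form -/

namespace Pool.Agent.QGE

open MvPolynomial Module Submodule Pool.Agent.GenTuple Pool.Agent.QT Pool.Agent.QGT

theorem theoremE {r : ℕ} {w : ℂ} {v : Fin r → ℂ}
    (hv : LinearIndependent (algebraicClosure ℚ ℂ) (Fin.cons w v : Fin (r + 1) → ℂ))
    (W' : Submodule (algebraicClosure ℚ ℂ) ℂ) (hfd : FiniteDimensional (algebraicClosure ℚ ℂ) W')
    (hW' : finrank (algebraicClosure ℚ ℂ) W' < r ∧ w ∉ W' ∨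
      W' = span (algebraicClosure ℚ ℂ) (Set.range v)) :
    ∃ Φ : MvPolynomial (Fin r) (algebraicClosure ℚ ℂ), Φ ≠ 0 ∧
      ∀ m : Fin r → algebraicClosure ℚ ℂ, eval m Φ ≠ 0 → ∀ y ∈ W',
        y ∉ span (algebraicClosure ℚ ℂ) {w, ∑ j, m j • v j} →
        ∀ P : MvPolynomial (Fin 2) (algebraicClosure ℚ ℂ), P ≠ 0 → P.degreeOf 0 < r →
          aeval ![y / w, (∑ j, m j • v j) / w] P ≠ 0 := by
  classical
  have hcl : IsAlgClosed (algebraicClosure ℚ ℂ) :=
    (algebraicClosure.isAlgClosure ℚ ℂ).isAlgClosed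
  rcases Nat.eq_zero_or_pos r with hr0 | hr0
  · refine ⟨1, one_ne_zero, fun m _ y _ _ P _ hP => ?_⟩
    omega
  have hw : w ≠ 0 := hv.ne_zero 0
  have hvi : LinearIndependent (algebraicClosure ℚ ℂ) v := (linearIndependent_finSucc.1 hv).1
  have hwv : w ∉ span (algebraicClosure ℚ ℂ) (Set.range v) := (linearIndependent_finSucc.1 hv).2
  have ht := ind1_div hw hvi hwv
  have hxw : ∀ m : Fin r → algebraicClosure ℚ ℂ, (∑ j, m j • v j) / w =
      ∑ j, algebraMap (algebraicClosure ℚ ℂ) ℂ (m j) * (v j / w) := by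
    intro m
    rw [Finset.sum_div]
    exact Finset.sum_congr rfl fun j _ => by
      rw [Algebra.smul_def]
      exact mul_div_assoc _ _ _
  have hspan : ∀ (m : Fin r → algebraicClosure ℚ ℂ) (y : ℂ) (c0 c : algebraicClosure ℚ ℂ),
      y / w = algebraMap (algebraicClosure ℚ ℂ) ℂ c0 + algebraMap (algebraicClosure ℚ ℂ) ℂ c *
        ∑ j, algebraMap (algebraicClosure ℚ ℂ) ℂ (m j) * (v j / w) →
      y ∈ span (algebraicClosure ℚ ℂ) {w, ∑ j, m j • v j} := by
    intro m y c0 c h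
    refine mem_span_pair.2 ⟨c0, c, ?_⟩
    have h7 : y = (y / w) * w := (div_mul_cancel₀ _ hw).symm
    rw [h7, h, ← hxw, add_mul, mul_assoc, div_mul_cancel₀ _ hw]
    rfl
  rcases hW' with ⟨hb, hwW⟩ | hW
  · let B := Module.finBasis (algebraicClosure ℚ ℂ) W'
    have hBi : LinearIndependent (algebraicClosure ℚ ℂ) (fun j => (B j : ℂ)) :=
      B.linearIndependent.map' W'.subtype (Submodule.ker_subtype _)
    have hBw : w ∉ span (algebraicClosure ℚ ℂ) (Set.range fun j => (B j : ℂ)) := fun h =>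
      hwW (by
        refine (span_le.2 ?_) h
        rintro _ ⟨j, rfl⟩
        exact (B j).2)
    obtain ⟨Φ, h1, h2⟩ := genericE2 (e := r - 1) (by omega) hb (fun j => v j / w) ht
      (fun j => (B j : ℂ) / w) (ind1_div hw hBi hBw)
    refine ⟨Φ, h1, fun m hm y hy hyx P hP hPr => ?_⟩
    let n : Fin (finrank (algebraicClosure ℚ ℂ) W') → algebraicClosure ℚ ℂ :=
      fun j => B.repr ⟨y, hy⟩ j
    have hn : ∑ j, n j • B j = ⟨y, hy⟩ := B.sum_repr _
    have hyn : y = ∑ j, algebraMap (algebraicClosure ℚ ℂ) ℂ (n j) * (B j : ℂ) := by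
      have h5 := congrArg (fun z : W' => (z : ℂ)) hn
      simp only [Submodule.coe_sum] at h5
      exact h5.symm
    have hyw : y / w = ∑ j, algebraMap (algebraicClosure ℚ ℂ) ℂ (n j) * ((B j : ℂ) / w) := by
      rw [hyn, Finset.sum_div]
      exact Finset.sum_congr rfl fun j _ => mul_div_assoc _ _ _
    have h3 := h2 m n hm (fun c0 c hc => hyx (hspan m y c0 c (hyw.trans hc))) P hP (by omega)
    rw [hyw, hxw]
    exact h3
  · obtain ⟨Φ, h1, h2⟩ := genericE (e := r - 1) (by omega) (fun j => v j / w) ht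
    refine ⟨Φ, h1, fun m hm y hy hyx P hP hPr => ?_⟩
    rw [hW] at hy
    obtain ⟨n, hn⟩ := (mem_span_range_iff_exists_fun _).1 hy
    have hyw : y / w = ∑ j, algebraMap (algebraicClosure ℚ ℂ) ℂ (n j) * (v j / w) := by
      rw [← hn]
      exact hxw n
    have h3 := h2 m n hm (fun c hc => hyx (hspan m y 0 c (by
      rw [hyw, hc, map_zero, zero_add, Finset.mul_sum]
      refine Finset.sum_congr rfl fun j _ => ?_
      rw [← mul_assoc, ← map_mul]
      rfl))) P hP (by omega)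
    rw [hyw, hxw]
    exact h3

end Pool.Agent.QGE
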